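import Mathlib

set_option autoImplicit false

/-! DPRM, part 1: binomial coefficients, factorials and descending factorials are Diophantine. -/

namespace Pool.Agent.DPRM69

open Dioph Nat

/-- Binomial coefficients as digits of `(u + 1) ^ n` in base `u = 2 ^ n + 1`. -/
theorem choose_eq (n k : ℕ) :
    n.choose k = ((2 ^ n + 1 + 1) ^ n / (2 ^ n + 1) ^ k) % (2 ^ n + 1) := by
  set u := 2 ^ n + 1 with hu
  have hupos : 0 < u := by positivity
  have hlt : ∀ j, n.choose j < u := by
    intro j
    have h1 : n.choose j ≤ 2 ^ n := by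
      rcases le_or_gt j n with hj | hj
      · rw [← Nat.sum_range_choose n]
        exact Finset.single_le_sum (f := fun m => n.choose m) (fun _ _ => Nat.zero_le _)
          (Finset.mem_range.2 (by omega))
      · rw [Nat.choose_eq_zero_of_lt hj]; exact Nat.zero_le _
    omega
  have hlow : ∀ k, ∑ m ∈ Finset.range k, u ^ m * n.choose m < u ^ k := by
    intro k
    induction k with
    | zero => simp
    | succ k ih =>
      rw [Finset.sum_range_succ, pow_succ]
      have h2 : n.choose k + 1 ≤ u := hlt k
      calc ∑ m ∈ Finset.range k, u ^ m * n.choose m + u ^ k * n.choose k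
          < u ^ k + u ^ k * n.choose k := by omega
        _ = u ^ k * (n.choose k + 1) := by ring
        _ ≤ u ^ k * u := Nat.mul_le_mul_left _ h2
  rcases le_or_gt k n with hk | hk
  · have hsum : (u + 1) ^ n = ∑ m ∈ Finset.range k, u ^ m * n.choose m +
        u ^ k * (n.choose k + u * ∑ m ∈ Finset.range (n - k), u ^ m * n.choose (k + 1 + m)) := by
      have h1 : (u + 1) ^ n = ∑ m ∈ Finset.range (n + 1), u ^ m * n.choose m := by
        rw [add_pow]
        refine Finset.sum_congr rfl fun m _ => ?_
        simp
      rw [h1, show n + 1 = k + (1 + (n - k)) by omega, Finset.sum_range_add, mul_add]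
      congr 1
      rw [Finset.sum_range_add, Finset.sum_range_one, Finset.mul_sum, Finset.mul_sum]
      simp only [add_zero]
      congr 1
      refine Finset.sum_congr rfl fun m _ => ?_
      rw [show k + (1 + m) = k + 1 + m by omega, pow_add, pow_add, pow_one]
      ring
    rw [hsum, Nat.add_mul_div_left _ _ (pow_pos hupos k), Nat.div_eq_of_lt (hlow k), zero_add,
      Nat.add_mul_mod_self_left, Nat.mod_eq_of_lt (hlt k)]
  · rw [Nat.choose_eq_zero_of_lt hk]
    have h1 : (u + 1) ^ n < u ^ k := by
      have h2 : (u + 1) ^ n = ∑ m ∈ Finset.range (n + 1), u ^ m * n.choose m := by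
        rw [add_pow]
        refine Finset.sum_congr rfl fun m _ => ?_
        simp
      rw [h2]
      exact lt_of_lt_of_le (hlow (n + 1)) (Nat.pow_le_pow_right hupos hk)
    rw [Nat.div_eq_of_lt h1, Nat.zero_mod]

section
variable {α : Type} {f g : (α → ℕ) → ℕ} (df : DiophFn f) (dg : DiophFn g)
include df dg

theorem choose_dioph : DiophFn fun v => (f v).choose (g v) := by
  have h : DiophFn fun v => ((2 ^ f v + 1 + 1) ^ f v / (2 ^ f v + 1) ^ g v) % (2 ^ f v + 1) := by
    have hu : DiophFn fun v => 2 ^ f v + 1 :=
      add_dioph (pow_dioph (const_dioph 2) df) (const_dioph 1)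
    exact mod_dioph (div_dioph (pow_dioph (add_dioph hu (const_dioph 1)) df)
      (pow_dioph hu dg)) hu
  have e : (fun v => (f v).choose (g v)) =
      fun v => ((2 ^ f v + 1 + 1) ^ f v / (2 ^ f v + 1) ^ g v) % (2 ^ f v + 1) :=
    funext fun v => choose_eq _ _
  rw [e]
  exact h

end

/-- Factorials from powers and binomial coefficients. -/
theorem factorial_eq (n : ℕ) :
    n ! = (2 * (n + 1) ^ (n + 2)) ^ n / (2 * (n + 1) ^ (n + 2)).choose n := by
  set r := 2 * (n + 1) ^ (n + 2) with hr
  have hnr : n ≤ r := by
    have h1 : (n + 1) ^ 1 ≤ (n + 1) ^ (n + 2) := Nat.pow_le_pow_right (by omega) (by omega)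
    rw [pow_one] at h1
    omega
  have hchpos : 0 < r.choose n := Nat.choose_pos hnr
  symm
  rw [Nat.div_eq_iff hchpos]
  have hdf : r.descFactorial n = n ! * r.choose n := Nat.descFactorial_eq_factorial_mul_choose r n
  refine ⟨?_, ?_⟩
  · rw [← hdf]
    exact Nat.descFactorial_le_pow r n
  · -- r ^ n < (n! + 1) * choose
    have hkey : n ! * r ^ n < (n ! + 1) * r.descFactorial n := by
      have hfac : (n ! + 1) * (n * n) < r := by
        have h1 : n ! ≤ (n + 1) ^ n :=
          le_trans (Nat.factorial_le_pow n) (Nat.pow_le_pow_left (by omega) n)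
        have h2 : 1 ≤ (n + 1) ^ n := Nat.one_le_pow _ _ (by omega)
        have h3 : n ! + 1 ≤ 2 * (n + 1) ^ n := by omega
        have h4 : n * n < (n + 1) ^ 2 := by nlinarith
        calc (n ! + 1) * (n * n) ≤ 2 * (n + 1) ^ n * (n * n) := Nat.mul_le_mul_right _ h3
          _ < 2 * (n + 1) ^ n * (n + 1) ^ 2 := Nat.mul_lt_mul_of_pos_left h4 (by positivity)
          _ = r := by rw [hr]; ring
      have hrpos : 0 < r := by omega
      have h1 : ((r + 1 - n : ℕ) : ℝ) ^ n ≤ (r.descFactorial n : ℝ) := by
        exact_mod_cast Nat.pow_sub_le_descFactorial r n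
      rw [Nat.cast_sub (by omega)] at h1
      push_cast at h1
      have hR : (0 : ℝ) < r := by exact_mod_cast hrpos
      have h2 : (r : ℝ) ^ n * (1 - n * n / r) ≤ ((r : ℝ) + 1 - n) ^ n := by
        have hb := one_add_mul_le_pow (a := -((n : ℝ) - 1) / r) (n := n) (by
          rw [le_div_iff₀ hR]
          have : (n : ℝ) ≤ r := by exact_mod_cast hnr
          linarith)
        have e1 : ((r : ℝ) + 1 - n) ^ n = (r : ℝ) ^ n * (1 + -((n : ℝ) - 1) / r) ^ n := by
          rw [← mul_pow]
          congr 1
          field_simp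
          ring
        rw [e1]
        refine mul_le_mul_of_nonneg_left (le_trans ?_ hb) (by positivity)
        have hn0 : (0 : ℝ) ≤ n := by positivity
        have : (n : ℝ) * (-((n : ℝ) - 1) / r) = - (n * n / r) + n / r := by
          field_simp
          ring
        rw [this]
        have : (0 : ℝ) ≤ n / r := by positivity
        linarith
      have h3 : ((n ! : ℝ) + 1) * (n * n) < r := by exact_mod_cast hfac
      have h4 : (n ! : ℝ) * (r : ℝ) ^ n < ((n ! : ℝ) + 1) * (r.descFactorial n : ℝ) := by
        have hpow : (0 : ℝ) < (r : ℝ) ^ n := by positivity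
        have h5 : ((n ! : ℝ) + 1) * ((r : ℝ) ^ n * (1 - n * n / r)) ≤
            ((n ! : ℝ) + 1) * (r.descFactorial n : ℝ) :=
          mul_le_mul_of_nonneg_left (le_trans h2 h1) (by positivity)
        refine lt_of_lt_of_le ?_ h5
        have h6 : ((n ! : ℝ) + 1) * (n * n / r) < 1 := by
          rw [← mul_div_assoc, div_lt_one hR]
          exact h3
        nlinarith
      exact_mod_cast h4
    rw [hdf] at hkey
    have hfp : 0 < n ! := Nat.factorial_pos n
    have h7 : n ! * r ^ n < n ! * ((n ! + 1) * r.choose n) := by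
      calc n ! * r ^ n < (n ! + 1) * (n ! * r.choose n) := hkey
        _ = n ! * ((n ! + 1) * r.choose n) := by ring
    have h8 := Nat.lt_of_mul_lt_mul_left h7
    have h9 : (n ! + 1) * r.choose n = n ! * r.choose n + r.choose n := by ring
    omega

section
variable {α : Type} {f g : (α → ℕ) → ℕ}

theorem factorial_dioph (df : DiophFn f) : DiophFn fun v => (f v)! := by
  have hr : DiophFn fun v => 2 * (f v + 1) ^ (f v + 2) :=
    mul_dioph (const_dioph 2) (pow_dioph (add_dioph df (const_dioph 1))
      (add_dioph df (const_dioph 2)))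
  have h : DiophFn fun v =>
      (2 * (f v + 1) ^ (f v + 2)) ^ f v / (2 * (f v + 1) ^ (f v + 2)).choose (f v) :=
    div_dioph (pow_dioph hr df) (choose_dioph hr df)
  have e : (fun v => (f v)!) = fun v =>
      (2 * (f v + 1) ^ (f v + 2)) ^ f v / (2 * (f v + 1) ^ (f v + 2)).choose (f v) :=
    funext fun v => factorial_eq _
  rw [e]
  exact h

theorem descFactorial_dioph (df : DiophFn f) (dg : DiophFn g) :
    DiophFn fun v => (f v).descFactorial (g v) := by
  have e : (fun v => (f v).descFactorial (g v)) = fun v => (g v)! * (f v).choose (g v) :=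
    funext fun v => Nat.descFactorial_eq_factorial_mul_choose _ _
  rw [e]
  exact mul_dioph (factorial_dioph dg) (choose_dioph df dg)

end

end Pool.Agent.DPRM69
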