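import Mathlib

set_option autoImplicit false

/-! DPRM, part 2: the modulus `C(c, n)` with `c + 1 = (N!)^2` (helper78's variant): it is the product
of the pairwise coprime numbers `m_i = (c + 1) / (i + 1) - 1`, all prime factors of which exceed `N`,
and `c = i` modulo `m_i`. -/

namespace Pool.Agent.DPRM69

open Nat

/-- The number `m_i`. -/
def mm (N i : ℕ) : ℕ := N ! ^ 2 / (i + 1) - 1

theorem mm_spec {N i : ℕ} (hN : 3 ≤ N) (hi : i < N) :
    (i + 1) * (mm N i + 1) = N ! ^ 2 ∧ 2 ≤ mm N i := by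
  have hd : i + 1 ∣ N ! := Nat.dvd_factorial (by omega) (by omega)
  have hd2 : i + 1 ∣ N ! ^ 2 := dvd_pow hd (by norm_num)
  obtain ⟨k, hk⟩ := hd
  have hfp : 0 < N ! := Nat.factorial_pos N
  have hkpos : 0 < k := by
    rcases Nat.eq_zero_or_pos k with h | h
    · rw [h] at hk; simp at hk; omega
    · exact h
  have hq : N ! ^ 2 / (i + 1) = k * N ! := by
    apply Nat.div_eq_of_eq_mul_right (by omega)
    rw [pow_two]
    nth_rewrite 1 [hk]
    ring
  have hN3 : 3 ≤ N ! := le_trans hN (Nat.self_le_factorial N)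
  have h3 : 3 ≤ k * N ! := le_trans hN3 (Nat.le_mul_of_pos_left _ hkpos)
  have hm : mm N i + 1 = k * N ! := by
    unfold mm
    rw [hq]
    omega
  refine ⟨?_, by omega⟩
  rw [hm, pow_two]
  nth_rewrite 2 [hk]
  ring

theorem mm_sub {N i : ℕ} (hN : 3 ≤ N) (hi : i < N) :
    (N ! ^ 2 - 1) = i + (i + 1) * mm N i := by
  have h := (mm_spec hN hi).1
  have : (i + 1) * (mm N i + 1) = (i + 1) * mm N i + (i + 1) := by ring
  omega

theorem mm_modEq {N i : ℕ} (hN : 3 ≤ N) (hi : i < N) : (N ! ^ 2 - 1) ≡ i [MOD mm N i] := by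
  rw [mm_sub hN hi]
  unfold Nat.ModEq
  rw [Nat.add_mul_mod_self_right]

theorem mm_prime {N i p : ℕ} (hN : 3 ≤ N) (hi : i < N) (hp : p.Prime) (hd : p ∣ mm N i) : N < p := by
  by_contra hle
  push Not at hle
  have hpd : p ∣ N ! := (hp.dvd_factorial).2 hle
  obtain ⟨k, hk⟩ : i + 1 ∣ N ! := Nat.dvd_factorial (by omega) (by omega)
  have h := (mm_spec hN hi).1
  have h1 : mm N i + 1 = k * N ! := by
    have h2 : (i + 1) * (mm N i + 1) = (i + 1) * (k * N !) := by
      rw [h, pow_two]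
      nth_rewrite 1 [hk]
      ring
    exact Nat.eq_of_mul_eq_mul_left (by omega) h2
  have h2 : p ∣ mm N i + 1 := by
    rw [h1]
    exact dvd_mul_of_dvd_right hpd k
  have h3 : p ∣ 1 := (Nat.dvd_add_right hd).1 h2
  exact hp.one_lt.ne' (Nat.dvd_one.1 h3)

theorem mm_coprime {N i j : ℕ} (hN : 3 ≤ N) (hi : i < N) (hj : j < N) (hij : i ≠ j) :
    Nat.Coprime (mm N i) (mm N j) := by
  rw [Nat.coprime_iff_gcd_eq_one]
  by_contra hg
  obtain ⟨p, hp, hpd⟩ := Nat.exists_prime_and_dvd hg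
  have h1 : p ∣ mm N i := hpd.trans (Nat.gcd_dvd_left _ _)
  have h2 : p ∣ mm N j := hpd.trans (Nat.gcd_dvd_right _ _)
  have hNp := mm_prime hN hi hp h1
  have e1 : (N ! ^ 2 - 1) ≡ i [MOD p] := (mm_modEq hN hi).of_dvd h1
  have e2 : (N ! ^ 2 - 1) ≡ j [MOD p] := (mm_modEq hN hj).of_dvd h2
  have e3 : i ≡ j [MOD p] := e1.symm.trans e2
  exact hij (e3.eq_of_lt_of_lt (by omega) (by omega))

theorem choose_mm {N n : ℕ} (hN : 3 ≤ N) (hn : n ≤ N) :
    (N ! ^ 2 - 1).choose n = ∏ i ∈ Finset.range n, mm N i := by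
  have h1 : (N ! ^ 2 - 1).descFactorial n = n ! * ∏ i ∈ Finset.range n, mm N i := by
    rw [Nat.descFactorial_eq_prod_range]
    have : ∀ m, m ≤ N → ∏ i ∈ Finset.range m, (N ! ^ 2 - 1 - i) =
        m ! * ∏ i ∈ Finset.range m, mm N i := by
      intro m
      induction m with
      | zero => intro _; simp
      | succ m ih =>
        intro hm
        rw [Finset.prod_range_succ, Finset.prod_range_succ, ih (by omega), Nat.factorial_succ]
        have h2 := mm_sub hN (show m < N by omega)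
        have h3 : N ! ^ 2 - 1 - m = (m + 1) * mm N m := by omega
        rw [h3]
        ring
    exact this n hn
  have h2 := Nat.descFactorial_eq_factorial_mul_choose (N ! ^ 2 - 1) n
  rw [h1] at h2
  exact (Nat.eq_of_mul_eq_mul_left (Nat.factorial_pos n) h2).symm

end Pool.Agent.DPRM69
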