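import Mathlib
import Pool.Agent.DPRM69.Choose
import Pool.Agent.DPRM69.Modulus

set_option autoImplicit false

/-! DPRM, part 3: Diophantine sets are closed under bounded universal quantification. -/

namespace Pool.Agent.DPRM69

open Dioph Nat

/-- A polynomial respects congruences. -/
theorem poly_modEq {γ : Type} {f : (γ → ℕ) → ℤ} (hf : IsPoly f) (m : ℕ) (x y : γ → ℕ)
    (h : ∀ k, x k ≡ y k [MOD m]) : f x ≡ f y [ZMOD m] := by
  induction hf with
  | proj i => exact (Int.natCast_modEq_iff).2 (h i)
  | const n => exact Int.ModEq.refl _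
  | sub _ _ h1 h2 => exact h1.sub h2
  | mul _ _ h1 h2 => exact h1.mul h2

/-- A majorant of a polynomial. -/
theorem exists_bound {α β : Type} {f : ((Option α ⊕ β) → ℕ) → ℤ} (hf : IsPoly f) :
    ∃ (s : Finset β) (B : (Option (Option α) → ℕ) → ℕ), DiophFn B ∧
      ∀ (u n : ℕ) (v : α → ℕ) (i : ℕ) (t : β → ℕ), i ≤ n → (∀ j ∈ s, t j ≤ u) →
        (f (Sum.elim (Option.elim' i v) t)).natAbs ≤ B (Option.elim' u (Option.elim' n v)) := by
  classical
  induction hf with
  | proj k =>
    rcases k with (_ | a) | j
    · refine ⟨∅, fun w => w (some none), proj_dioph _, ?_⟩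
      intro u n v i t hi _
      simpa using hi
    · refine ⟨∅, fun w => w (some (some a)), proj_dioph _, ?_⟩
      intro u n v i t hi _
      simp
    · refine ⟨{j}, fun w => w none, proj_dioph _, ?_⟩
      intro u n v i t hi ht
      simpa using ht j (by simp)
  | const c =>
    refine ⟨∅, fun _ => c.natAbs, const_dioph _, ?_⟩
    intro u n v i t hi _
    simp
  | sub _ _ h1 h2 =>
    obtain ⟨s1, B1, d1, b1⟩ := h1
    obtain ⟨s2, B2, d2, b2⟩ := h2
    refine ⟨s1 ∪ s2, fun w => B1 w + B2 w, add_dioph d1 d2, ?_⟩
    intro u n v i t hi ht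
    refine le_trans (Int.natAbs_sub_le _ _) (Nat.add_le_add ?_ ?_)
    · exact b1 u n v i t hi fun j hj => ht j (Finset.mem_union_left _ hj)
    · exact b2 u n v i t hi fun j hj => ht j (Finset.mem_union_right _ hj)
  | mul _ _ h1 h2 =>
    obtain ⟨s1, B1, d1, b1⟩ := h1
    obtain ⟨s2, B2, d2, b2⟩ := h2
    refine ⟨s1 ∪ s2, fun w => B1 w * B2 w, mul_dioph d1 d2, ?_⟩
    intro u n v i t hi ht
    rw [Int.natAbs_mul]
    refine Nat.mul_le_mul ?_ ?_
    · exact b1 u n v i t hi fun j hj => ht j (Finset.mem_union_left _ hj)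
    · exact b2 u n v i t hi fun j hj => ht j (Finset.mem_union_right _ hj)

/-- The key equivalence. -/
theorem ball_iff {α β : Type} {f : ((Option α ⊕ β) → ℕ) → ℤ} (hf : IsPoly f)
    (s : Finset β) (B : (Option (Option α) → ℕ) → ℕ)
    (hB : ∀ (u n : ℕ) (v : α → ℕ) (i : ℕ) (t : β → ℕ), i ≤ n → (∀ j ∈ s, t j ≤ u) →
        (f (Sum.elim (Option.elim' i v) t)).natAbs ≤ B (Option.elim' u (Option.elim' n v)))
    (n : ℕ) (v : α → ℕ) :
    (∀ i < n, ∃ t, f (Sum.elim (Option.elim' i v) t) = 0) ↔
      ∃ (Z : β → ℕ) (u N c : ℕ), 3 ≤ N ∧ n ≤ N ∧ u ≤ N ∧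
        B (Option.elim' u (Option.elim' n v)) ≤ N ∧ c + 1 = N ! ^ 2 ∧
        c.choose n ∣ (f (Sum.elim (Option.elim' c v) Z)).natAbs ∧
        ∀ j ∈ s, c.choose n ∣ (Z j).descFactorial (u + 1) := by
  classical
  constructor
  · intro h
    choose! t ht using h
    -- the bound
    obtain ⟨u, hu⟩ : ∃ u, ∀ i < n, ∀ j ∈ s, t i j ≤ u := by
      refine ⟨∑ i ∈ Finset.range n, ∑ j ∈ s, t i j, ?_⟩
      intro i hi j hj
      exact le_trans (Finset.single_le_sum (f := fun j => t i j) (fun _ _ => Nat.zero_le _) hj)
        (Finset.single_le_sum (f := fun i => ∑ j ∈ s, t i j) (fun _ _ => Nat.zero_le _)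
          (Finset.mem_range.2 hi))
    set N := 3 + n + u + B (Option.elim' u (Option.elim' n v)) with hN
    have hN3 : 3 ≤ N := by omega
    have hnN : n ≤ N := by omega
    have hco : (Finset.range n : Set ℕ).Pairwise (Function.onFun Nat.Coprime (mm N)) := by
      intro i hi j hj hij
      have hi' : i < n := by simpa using hi
      have hj' : j < n := by simpa using hj
      exact mm_coprime hN3 (by omega) (by omega) hij
    have hZ : ∀ j : β, ∃ z : ℕ, ∀ i < n, z ≡ t i j [MOD mm N i] := by
      intro j
      obtain ⟨z, hz⟩ := Nat.chineseRemainderOfFinset (fun i => t i j) (mm N) (Finset.range n)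
        (fun i hi => by
          have hi' : i < n := by simpa using hi
          have := (mm_spec hN3 (show i < N by omega)).2
          omega) hco
      exact ⟨z, fun i hi => hz i (Finset.mem_range.2 hi)⟩
    choose Z hZ' using hZ
    have hfpos : 0 < N ! ^ 2 := pow_pos (Nat.factorial_pos N) 2
    refine ⟨Z, u, N, N ! ^ 2 - 1, hN3, hnN, by omega, by omega, by omega, ?_, ?_⟩
    · rw [choose_mm hN3 hnN]
      refine Finset.prod_dvd_of_isRelPrime ?_ ?_
      · intro i hi j hj hij
        exact Nat.coprime_iff_isRelPrime.1 (hco hi hj hij)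
      · intro i hi
        have hi' : i < n := by simpa using hi
        have h1 : f (Sum.elim (Option.elim' (N ! ^ 2 - 1) v) Z) ≡
            f (Sum.elim (Option.elim' i v) (t i)) [ZMOD (mm N i : ℕ)] := by
          apply poly_modEq hf
          rintro ((_ | a) | j)
          · exact mm_modEq hN3 (by omega)
          · exact Nat.ModEq.refl _
          · exact hZ' j i hi'
        rw [ht i hi'] at h1
        have h2 := (Int.modEq_zero_iff_dvd).1 h1
        exact Int.natCast_dvd.1 h2
    · intro j hj
      rw [choose_mm hN3 hnN]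
      refine Finset.prod_dvd_of_isRelPrime ?_ ?_
      · intro i hi j hj hij
        exact Nat.coprime_iff_isRelPrime.1 (hco hi hj hij)
      · intro i hi
        have hi' : i < n := by simpa using hi
        rw [Nat.descFactorial_eq_prod_range]
        refine dvd_trans ?_ (Finset.dvd_prod_of_mem _
          (Finset.mem_range.2 (show t i j < u + 1 from Nat.lt_succ_of_le (hu i hi' j hj))))
        rcases le_or_gt (t i j) (Z j) with hle | hgt
        · exact (Nat.modEq_iff_dvd' hle).1 (hZ' j i hi').symm
        · rw [Nat.sub_eq_zero_of_le hgt.le]; exact dvd_zero _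
  · rintro ⟨Z, u, N, c, hN3, hnN, huN, hBN, hc, hdiv, hdf⟩ i hi
    have hcN : c = N ! ^ 2 - 1 := by omega
    rw [hcN, choose_mm hN3 hnN] at hdiv
    have hiN : i < N := by omega
    have hm2 := (mm_spec hN3 hiN).2
    obtain ⟨p, hp, hpm⟩ := Nat.exists_prime_and_dvd (show mm N i ≠ 1 by omega)
    have hpN := mm_prime hN3 hiN hp hpm
    have hmprod : mm N i ∣ ∏ i ∈ Finset.range n, mm N i :=
      Finset.dvd_prod_of_mem _ (Finset.mem_range.2 hi)
    refine ⟨fun j => Z j % p, ?_⟩
    have hbound : (f (Sum.elim (Option.elim' i v) fun j => Z j % p)).natAbs ≤ N := by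
      refine le_trans (hB u n v i _ hi.le ?_) hBN
      intro j hj
      have h1 : p ∣ (Z j).descFactorial (u + 1) := by
        have h2 := hdf j hj
        rw [hcN, choose_mm hN3 hnN] at h2
        exact (hpm.trans hmprod).trans h2
      rw [Nat.descFactorial_eq_prod_range] at h1
      obtain ⟨w, hw, hpw⟩ := (hp.prime.dvd_finsetProd_iff _).1 h1
      have hwu : w ≤ u := by
        have := Finset.mem_range.1 hw
        omega
      rcases le_or_gt w (Z j) with hle | hgt
      · have h3 : w ≡ Z j [MOD p] := (Nat.modEq_iff_dvd' hle).2 hpw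
        have h4 : Z j % p = w := by
          have h5 : w % p = Z j % p := h3
          rw [← h5]
          exact Nat.mod_eq_of_lt (by omega)
        show Z j % p ≤ u
        omega
      · have h4 : Z j % p ≤ Z j := Nat.mod_le _ _
        show Z j % p ≤ u
        omega
    have hcong : f (Sum.elim (Option.elim' c v) Z) ≡
        f (Sum.elim (Option.elim' i v) fun j => Z j % p) [ZMOD (p : ℕ)] := by
      apply poly_modEq hf
      rintro ((_ | a) | j)
      · rw [hcN]
        exact (mm_modEq hN3 hiN).of_dvd hpm
      · exact Nat.ModEq.refl _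
      · exact (Nat.mod_modEq _ _).symm
    have hpd : (p : ℤ) ∣ f (Sum.elim (Option.elim' c v) Z) := by
      rw [Int.natCast_dvd]
      rw [hcN]
      exact (hpm.trans hmprod).trans hdiv
    have hpd2 : (p : ℤ) ∣ f (Sum.elim (Option.elim' i v) fun j => Z j % p) := by
      have h0 : f (Sum.elim (Option.elim' c v) Z) ≡ 0 [ZMOD (p : ℕ)] :=
        (Int.modEq_zero_iff_dvd).2 hpd
      exact (Int.modEq_zero_iff_dvd).1 (hcong.symm.trans h0)
    have h6 : (f (Sum.elim (Option.elim' i v) fun j => Z j % p)).natAbs = 0 := by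
      have h7 : p ∣ (f (Sum.elim (Option.elim' i v) fun j => Z j % p)).natAbs :=
        Int.natCast_dvd.1 hpd2
      exact Nat.eq_zero_of_dvd_of_lt h7 (by omega)
    exact Int.natAbs_eq_zero.1 h6

theorem true_dioph {α : Type} : Dioph {_v : α → ℕ | True} :=
  of_no_dummies _ (Poly.const 0) fun _ => by simp

theorem finset_dioph {α ι : Type} (s : Finset ι) (Q : ι → (α → ℕ) → Prop)
    (h : ∀ j ∈ s, Dioph {x | Q j x}) : Dioph {x | ∀ j ∈ s, Q j x} := by
  classical
  induction s using Finset.induction_on with
  | empty => exact true_dioph.ext fun v => by simp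
  | insert a s ha ih =>
    refine ((h a (by simp)).inter (ih fun j hj => h j (by simp [hj]))).ext fun v => ?_
    simp

/-- Closure under bounded universal quantification, with the bound as a variable. -/
theorem ball_dioph_var {α : Type} {S : Set (Option α → ℕ)} (h : Dioph S) :
    Dioph {w : Option α → ℕ | ∀ i < w none, (Option.elim' i (w ∘ some)) ∈ S} := by
  obtain ⟨β, p, hp⟩ := h
  obtain ⟨s, B, dB, hB⟩ := exists_bound p.2
  -- innermost variables
  have dN : DiophFn fun x : Option (Option (Option (Option α ⊕ β))) → ℕ => x (some none) :=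
    proj_dioph _
  have dc : DiophFn fun x : Option (Option (Option (Option α ⊕ β))) → ℕ => x none := proj_dioph _
  have du : DiophFn fun x : Option (Option (Option (Option α ⊕ β))) → ℕ => x (some (some none)) :=
    proj_dioph _
  have dn : DiophFn fun x : Option (Option (Option (Option α ⊕ β))) → ℕ =>
    x (some (some (some (Sum.inl none)))) := proj_dioph _
  have dZ : ∀ j : β, DiophFn fun x : Option (Option (Option (Option α ⊕ β))) → ℕ =>
    x (some (some (some (Sum.inr j)))) := fun j => proj_dioph _
  have dBB := reindex_diophFn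
    (fun k : Option (Option α) => (match k with
      | none => some (some none)
      | some none => some (some (some (Sum.inl none)))
      | some (some a) => some (some (some (Sum.inl (some a)))) :
        Option (Option (Option (Option α ⊕ β))))) dB
  have dP := reindex_diophFn
    (fun k : Option α ⊕ β => (match k with
      | Sum.inl none => none
      | Sum.inl (some a) => some (some (some (Sum.inl (some a))))
      | Sum.inr j => some (some (some (Sum.inr j))) :
        Option (Option (Option (Option α ⊕ β))))) (abs_poly_dioph p)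
  have dch := choose_dioph dc dn
  have hall := ((((((le_dioph (const_dioph 3) dN).inter (le_dioph dn dN)).inter
    (le_dioph du dN)).inter (le_dioph dBB dN)).inter
    (eq_dioph (add_dioph dc (const_dioph 1)) (pow_dioph (factorial_dioph dN) (const_dioph 2)))).inter
    (dvd_dioph dch dP)).inter
    (finset_dioph s (fun j x => (x none).choose (x (some (some (some (Sum.inl none))))) ∣
      (x (some (some (some (Sum.inr j))))).descFactorial (x (some (some none)) + 1))
      (fun j _ => dvd_dioph dch (descFactorial_dioph (dZ j) (add_dioph du (const_dioph 1)))))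
  have hex := ex_dioph (ex1_dioph (ex1_dioph (ex1_dioph hall)))
  refine hex.ext fun w => ?_
  have hset : ∀ i, (Option.elim' i (w ∘ some)) ∈ S ↔
      ∃ t, p (Sum.elim (Option.elim' i (w ∘ some)) t) = 0 := fun i => hp _
  have key := ball_iff p.2 s B hB (w none) (w ∘ some)
  have e1 : ∀ (Z : β → ℕ) (u N c : ℕ),
      ((Option.elim' c (Option.elim' N (Option.elim' u (Sum.elim w Z))) :
        Option (Option (Option (Option α ⊕ β))) → ℕ) ∘
        (fun k : Option (Option α) => (match k with
          | none => some (some none)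
          | some none => some (some (some (Sum.inl none)))
          | some (some a) => some (some (some (Sum.inl (some a)))) :
            Option (Option (Option (Option α ⊕ β)))))) =
      Option.elim' u (Option.elim' (w none) (w ∘ some)) := by
    intro Z u N c
    funext k
    rcases k with _ | _ | a <;> rfl
  have e2 : ∀ (Z : β → ℕ) (u N c : ℕ),
      ((Option.elim' c (Option.elim' N (Option.elim' u (Sum.elim w Z))) :
        Option (Option (Option (Option α ⊕ β))) → ℕ) ∘
        (fun k : Option α ⊕ β => (match k with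
          | Sum.inl none => none
          | Sum.inl (some a) => some (some (some (Sum.inl (some a))))
          | Sum.inr j => some (some (some (Sum.inr j))) :
            Option (Option (Option (Option α ⊕ β)))))) =
      Sum.elim (Option.elim' c (w ∘ some)) Z := by
    intro Z u N c
    funext k
    rcases k with (_ | a) | j <;> rfl
  constructor
  · rintro ⟨Z, u, N, c, h1⟩
    intro i hi
    rw [hset]
    refine key.2 ⟨Z, u, N, c, ?_⟩ i hi
    obtain ⟨⟨⟨⟨⟨⟨a1, a2⟩, a3⟩, a4⟩, a5⟩, a6⟩, a7⟩ := h1
    simp only [Set.mem_ofPred_eq] at a4 a6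
    rw [e1] at a4
    rw [e2] at a6
    exact ⟨a1, a2, a3, a4, a5, a6, a7⟩
  · intro hw
    have hw' : ∀ i < w none, ∃ t, p.1 (Sum.elim (Option.elim' i (w ∘ some)) t) = 0 :=
      fun i hi => (hset i).1 (hw i hi)
    obtain ⟨Z, u, N, c, a1, a2, a3, a4, a5, a6, a7⟩ := key.1 hw'
    refine ⟨Z, u, N, c, ⟨⟨⟨⟨⟨⟨a1, a2⟩, a3⟩, ?_⟩, a5⟩, ?_⟩, a7⟩⟩
    · simp only [Set.mem_ofPred_eq]
      rw [e1]
      exact a4
    · simp only [Set.mem_ofPred_eq]
      rw [e2]
      exact a6

/-- Closure under bounded universal quantification. -/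
theorem ball_dioph {α : Type} {S : Set (Option α → ℕ)} (h : Dioph S) {f : (α → ℕ) → ℕ}
    (hf : DiophFn f) : Dioph {v : α → ℕ | ∀ i < f v, (Option.elim' i v) ∈ S} :=
  (diophFn_comp1 (ball_dioph_var h) hf).ext fun _ => Iff.rfl

end Pool.Agent.DPRM69
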