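import Mathlib
import Pool.Agent.DPRM69.Ball

set_option autoImplicit false

/-! DPRM, part 4: graphs of partial recursive functions are Diophantine; there is a Diophantine set
of natural numbers which is not computable. -/

namespace Pool.Agent.DPRM69

open Dioph Nat

theorem ex_d {α : Type} {P : ℕ → (α → ℕ) → Prop}
    (h : Dioph {w : Option α → ℕ | P (w none) (w ∘ some)}) : Dioph {v : α → ℕ | ∃ x, P x v} :=
  (ex1_dioph h).ext fun _ => Iff.rfl

theorem ball_d {α : Type} {P : ℕ → (α → ℕ) → Prop} {f : (α → ℕ) → ℕ} (hf : DiophFn f)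
    (h : Dioph {w : Option α → ℕ | P (w none) (w ∘ some)}) :
    Dioph {v : α → ℕ | ∀ i < f v, P i v} :=
  (ball_dioph h hf).ext fun _ => Iff.rfl

theorem wk {α : Type} {f : (α → ℕ) → ℕ} (hf : DiophFn f) :
    DiophFn fun w : Option α → ℕ => f (w ∘ some) := reindex_diophFn some hf

theorem pair_dioph {α : Type} {a b : (α → ℕ) → ℕ} (da : DiophFn a) (db : DiophFn b) :
    DiophFn fun v => Nat.pair (a v) (b v) := by
  have h1 := ((lt_dioph (wk da) (wk db)).inter
    (eq_dioph (add_dioph (mul_dioph (wk db) (wk db)) (wk da)) (proj_dioph none))).union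
    ((le_dioph (wk db) (wk da)).inter
    (eq_dioph (add_dioph (add_dioph (mul_dioph (wk da) (wk da)) (wk da)) (wk db))
      (proj_dioph none)))
  refine h1.ext fun w => ?_
  show (a (w ∘ some) < b (w ∘ some) ∧
      b (w ∘ some) * b (w ∘ some) + a (w ∘ some) = w none) ∨
    (b (w ∘ some) ≤ a (w ∘ some) ∧
      a (w ∘ some) * a (w ∘ some) + a (w ∘ some) + b (w ∘ some) = w none) ↔
    Nat.pair (a (w ∘ some)) (b (w ∘ some)) = w none
  unfold Nat.pair
  split_ifs with h
  · constructor
    · rintro (⟨_, h2⟩ | ⟨h2, _⟩)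
      · exact h2
      · omega
    · intro h2; exact Or.inl ⟨h, h2⟩
  · constructor
    · rintro (⟨h2, _⟩ | ⟨_, h2⟩)
      · omega
      · exact h2
    · intro h2; exact Or.inr ⟨by omega, h2⟩

/-- The graph of a partial function is Diophantine (in substitution form). -/
def GD (f : ℕ →. ℕ) : Prop :=
  ∀ {α : Type} {a b : (α → ℕ) → ℕ}, DiophFn a → DiophFn b → Dioph {v | b v ∈ f (a v)}

/-- Goedel's beta lemma. -/
theorem beta_exists (c : ℕ → ℕ) (n : ℕ) :
    ∃ s1 s2 : ℕ, ∀ i ≤ n, s1 % ((i + 1) * s2 + 1) = c i := by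
  set l := (List.range (n + 1)).map c with hl
  refine ⟨(Nat.unbeta l).unpair.1, (Nat.unbeta l).unpair.2, ?_⟩
  intro i hi
  have hlen : l.length = n + 1 := by rw [hl]; simp
  have h := Nat.beta_unbeta_coe l ⟨i, by omega⟩
  unfold Nat.beta at h
  have h2 : l[(⟨i, by omega⟩ : Fin l.length)] = c i := by
    simp [hl]
  rw [h2] at h
  exact h

/-- Sequences computing a primitive recursion. -/
theorem mem_rec_iff (f g : ℕ →. ℕ) (a n b : ℕ) :
    (b ∈ (n.rec (f a) fun y IH => do let i ← IH; g (Nat.pair a (Nat.pair y i)) : Part ℕ)) ↔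
    ∃ s1 s2 : ℕ, s1 % (s2 + 1) ∈ f a ∧
      (∀ i < n, s1 % ((i + 2) * s2 + 1) ∈ g (Nat.pair a (Nat.pair i (s1 % ((i + 1) * s2 + 1))))) ∧
      s1 % ((n + 1) * s2 + 1) = b := by
  have hseq : ∀ n b, (b ∈ (n.rec (f a) fun y IH => do
      let i ← IH; g (Nat.pair a (Nat.pair y i)) : Part ℕ)) ↔
      ∃ c : ℕ → ℕ, c 0 ∈ f a ∧ (∀ i < n, c (i + 1) ∈ g (Nat.pair a (Nat.pair i (c i)))) ∧
        c n = b := by
    intro n
    induction n with
    | zero =>
      intro b
      constructor
      · intro h
        exact ⟨fun _ => b, h, fun i hi => absurd hi (by omega), rfl⟩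
      · rintro ⟨c, h1, _, h3⟩
        rw [← h3]; exact h1
    | succ n ih =>
      intro b
      constructor
      · intro h
        obtain ⟨i, hi, hb⟩ := Part.mem_bind_iff.1 h
        obtain ⟨c, h1, h2, h3⟩ := (ih i).1 hi
        refine ⟨fun k => if k ≤ n then c k else b, ?_, ?_, ?_⟩
        · simpa using h1
        · intro k hk
          rcases Nat.lt_or_ge k n with hkn | hkn
          · have e1 : (if k + 1 ≤ n then c (k + 1) else b) = c (k + 1) := if_pos (by omega)
            have e2 : (if k ≤ n then c k else b) = c k := if_pos (by omega)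
            simp only [e1, e2]
            exact h2 k hkn
          · have hk' : k = n := by omega
            subst hk'
            have e1 : (if k + 1 ≤ k then c (k + 1) else b) = b := if_neg (by omega)
            have e2 : (if k ≤ k then c k else b) = c k := if_pos le_rfl
            show (if k + 1 ≤ k then c (k + 1) else b) ∈
              g (Nat.pair a (Nat.pair k (if k ≤ k then c k else b)))
            rw [e1, e2, h3]
            exact hb
        · exact if_neg (by omega)
      · rintro ⟨c, h1, h2, h3⟩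
        refine Part.mem_bind_iff.2 ⟨c n, (ih (c n)).2 ⟨c, h1, fun i hi => h2 i (by omega), rfl⟩, ?_⟩
        rw [← h3]
        exact h2 n (by omega)
  rw [hseq n b]
  constructor
  · rintro ⟨c, h1, h2, h3⟩
    obtain ⟨s1, s2, hs⟩ := beta_exists c n
    refine ⟨s1, s2, ?_, ?_, ?_⟩
    · have := hs 0 (by omega)
      rw [zero_add, one_mul] at this
      rw [this]; exact h1
    · intro i hi
      rw [show i + 2 = i + 1 + 1 by omega, hs (i + 1) (by omega), hs i (by omega)]
      exact h2 i hi
    · rw [hs n le_rfl]; exact h3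
  · rintro ⟨s1, s2, h1, h2, h3⟩
    refine ⟨fun i => s1 % ((i + 1) * s2 + 1), ?_, ?_, h3⟩
    · simpa using h1
    · intro i hi
      exact h2 i hi

theorem graph_dioph {f : ℕ →. ℕ} (hf : Nat.Partrec f) : GD f := by
  induction hf with
  | zero =>
    intro α a b da db
    refine (eq_dioph db (const_dioph 0)).ext fun v => ?_
    show b v = 0 ↔ b v ∈ (pure 0 : Part ℕ)
    exact (Part.mem_some_iff).symm
  | succ =>
    intro α a b da db
    refine (eq_dioph db (add_dioph da (const_dioph 1))).ext fun v => ?_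
    show b v = a v + 1 ↔ b v ∈ Part.some (Nat.succ (a v))
    exact (Part.mem_some_iff).symm
  | left =>
    intro α a b da db
    have h := ex_d (P := fun x (v : α → ℕ) => Nat.pair (b v) x = a v)
      (eq_dioph (pair_dioph (wk db) (proj_dioph none)) (wk da))
    refine h.ext fun v => ?_
    show (∃ x, Nat.pair (b v) x = a v) ↔ b v ∈ Part.some ((a v).unpair.1)
    rw [Part.mem_some_iff]
    constructor
    · rintro ⟨x, hx⟩; rw [← hx]; simp
    · intro h; exact ⟨(a v).unpair.2, by rw [h]; simp⟩
  | right =>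
    intro α a b da db
    have h := ex_d (P := fun x (v : α → ℕ) => Nat.pair x (b v) = a v)
      (eq_dioph (pair_dioph (proj_dioph none) (wk db)) (wk da))
    refine h.ext fun v => ?_
    show (∃ x, Nat.pair x (b v) = a v) ↔ b v ∈ Part.some ((a v).unpair.2)
    rw [Part.mem_some_iff]
    constructor
    · rintro ⟨x, hx⟩; rw [← hx]; simp
    · intro h; exact ⟨(a v).unpair.1, by rw [h]; simp⟩
  | @pair f g _ _ hf hg =>
    intro α a b da db
    have h := ex_d (P := fun x (v : α → ℕ) => ∃ y, (x ∈ f (a v) ∧ y ∈ g (a v)) ∧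
      Nat.pair x y = b v) (ex_d (P := fun y (w : Option α → ℕ) =>
        (w none ∈ f (a (w ∘ some)) ∧ y ∈ g (a (w ∘ some))) ∧
        Nat.pair (w none) y = b (w ∘ some))
        (((hf (wk (wk da)) (proj_dioph (some none))).inter
          (hg (wk (wk da)) (proj_dioph none))).inter
          (eq_dioph (pair_dioph (proj_dioph (some none)) (proj_dioph none)) (wk (wk db)))))
    refine h.ext fun v => ?_
    show (∃ x, ∃ y, (x ∈ f (a v) ∧ y ∈ g (a v)) ∧ Nat.pair x y = b v) ↔
      b v ∈ (Nat.pair <$> f (a v) <*> g (a v) : Part ℕ)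
    simp only [Seq.seq, Part.map_eq_map, Part.mem_bind_iff, Part.mem_map_iff]
    constructor
    · rintro ⟨x, y, ⟨hx, hy⟩, hxy⟩
      exact ⟨Nat.pair x, ⟨x, hx, rfl⟩, y, hy, hxy⟩
    · rintro ⟨_, ⟨x, hx, rfl⟩, y, hy, hxy⟩
      exact ⟨x, y, ⟨hx, hy⟩, hxy⟩
  | @comp f g _ _ hf hg =>
    intro α a b da db
    have h := ex_d (P := fun x (v : α → ℕ) => x ∈ g (a v) ∧ b v ∈ f x)
      ((hg (wk da) (proj_dioph none)).inter (hf (proj_dioph none) (wk db)))
    refine h.ext fun v => ?_
    show (∃ x, x ∈ g (a v) ∧ b v ∈ f x) ↔ b v ∈ (g (a v) >>= f : Part ℕ)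
    exact (Part.mem_bind_iff).symm
  | @prec f g _ _ hf hg =>
    intro α a b da db
    -- index: none = s2, some none = s1, some (some none) = N, some (some (some none)) = A
    have dA : DiophFn fun w : Option (Option (Option (Option α))) → ℕ =>
      w (some (some (some none))) := proj_dioph _
    have dN : DiophFn fun w : Option (Option (Option (Option α))) → ℕ =>
      w (some (some none)) := proj_dioph _
    have d1 : DiophFn fun w : Option (Option (Option (Option α))) → ℕ => w (some none) :=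
      proj_dioph _
    have d2 : DiophFn fun w : Option (Option (Option (Option α))) → ℕ => w none := proj_dioph _
    have di : DiophFn fun w : Option (Option (Option (Option (Option α)))) → ℕ => w none :=
      proj_dioph _
    have h1 := eq_dioph (pair_dioph dA dN) (wk (wk (wk (wk da))))
    have h2 := hf dA (mod_dioph d1 (add_dioph d2 (const_dioph 1)))
    have h3 := ball_d (P := fun i (w : Option (Option (Option (Option α))) → ℕ) =>
        w (some none) % ((i + 2) * w none + 1) ∈
          g (Nat.pair (w (some (some (some none))))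
            (Nat.pair i (w (some none) % ((i + 1) * w none + 1))))) dN
      (hg (pair_dioph (wk dA) (pair_dioph di (mod_dioph (wk d1)
          (add_dioph (mul_dioph (add_dioph di (const_dioph 1)) (wk d2)) (const_dioph 1)))))
        (mod_dioph (wk d1)
          (add_dioph (mul_dioph (add_dioph di (const_dioph 2)) (wk d2)) (const_dioph 1))))
    have h4 := eq_dioph (mod_dioph d1
      (add_dioph (mul_dioph (add_dioph dN (const_dioph 1)) d2) (const_dioph 1)))
      (wk (wk (wk (wk db))))
    have h := ex1_dioph (ex1_dioph (ex1_dioph (ex1_dioph (((h1.inter h2).inter h3).inter h4))))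
    refine h.ext fun v => ?_
    show (∃ A N s1 s2 : ℕ, ((Nat.pair A N = a v ∧ s1 % (s2 + 1) ∈ f A) ∧
      (∀ i < N, s1 % ((i + 2) * s2 + 1) ∈
        g (Nat.pair A (Nat.pair i (s1 % ((i + 1) * s2 + 1)))))) ∧
      s1 % ((N + 1) * s2 + 1) = b v) ↔
      b v ∈ ((a v).unpair.2.rec (f (a v).unpair.1) (fun y IH => do
        let i ← IH; g (Nat.pair (a v).unpair.1 (Nat.pair y i))) : Part ℕ)
    rw [mem_rec_iff]
    constructor
    · rintro ⟨A, N, s1, s2, ⟨⟨h1, h2⟩, h3⟩, h4⟩
      rw [← h1]
      simp only [Nat.unpair_pair]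
      exact ⟨s1, s2, h2, h3, h4⟩
    · rintro ⟨s1, s2, h2, h3, h4⟩
      exact ⟨(a v).unpair.1, (a v).unpair.2, s1, s2, ⟨⟨by simp, h2⟩, h3⟩, h4⟩
  | @rfind f _ hf =>
    intro α a b da db
    have h1 := hf (pair_dioph da db) (const_dioph 0)
    have h2 := ball_d (P := fun m (v : α → ℕ) => ∃ k, k + 1 ∈ f (Nat.pair (a v) m)) db
      (ex_d (P := fun k (w : Option α → ℕ) => k + 1 ∈ f (Nat.pair (a (w ∘ some)) (w none)))
        (hf (pair_dioph (wk (wk da)) (proj_dioph (some none)))
          (add_dioph (proj_dioph none) (const_dioph 1))))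
    refine (h1.inter h2).ext fun v => ?_
    show (0 ∈ f (Nat.pair (a v) (b v)) ∧ ∀ m < b v, ∃ k, k + 1 ∈ f (Nat.pair (a v) m)) ↔
      b v ∈ Nat.rfind fun n => (fun m => decide (m = 0)) <$> f (Nat.pair (a v) n)
    refine Iff.trans ?_ (Nat.mem_rfind).symm
    simp only [Part.map_eq_map, Part.mem_map_iff]
    constructor
    · rintro ⟨h1, h2⟩
      refine ⟨⟨0, h1, by simp⟩, ?_⟩
      intro m hm
      obtain ⟨k, hk⟩ := h2 m hm
      exact ⟨k + 1, hk, by simp⟩
    · rintro ⟨⟨x, hx, hx0⟩, h2⟩
      have : x = 0 := by simpa using hx0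
      subst this
      refine ⟨hx, ?_⟩
      intro m hm
      obtain ⟨y, hy, hy0⟩ := h2 hm
      have : y ≠ 0 := by simpa using hy0
      obtain ⟨k, rfl⟩ := Nat.exists_eq_succ_of_ne_zero this
      exact ⟨k, hy⟩

/-- Every recursively enumerable set of natural numbers is Diophantine (DPRM theorem). -/
theorem dprm {p : ℕ → Prop} (hp : REPred p) :
    Dioph {v : Fin2 1 → ℕ | p (v Fin2.fz)} := by
  have h1 : Nat.Partrec fun a => (Part.assert (p a) fun _ => Part.some ()).map fun _ => 0 :=
    Partrec.nat_iff.1 (Partrec.map hp (Computable.const 0).to₂)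
  have h2 := ex_d (P := fun x (v : Fin2 1 → ℕ) =>
      x ∈ (Part.assert (p (v Fin2.fz)) fun _ => Part.some ()).map fun _ => 0)
    (graph_dioph h1 (wk (proj_dioph Fin2.fz)) (proj_dioph none))
  refine h2.ext fun v => ?_
  show (∃ x, x ∈ (Part.assert (p (v Fin2.fz)) fun _ => Part.some ()).map fun _ => 0) ↔
    p (v Fin2.fz)
  simp

/-- There is a Diophantine set of natural numbers which is not computable. -/
theorem exists_dioph_not_computable :
    ∃ S : ℕ → Prop, Dioph {v : Fin2 1 → ℕ | S (v Fin2.fz)} ∧ ¬ ComputablePred S := by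
  refine ⟨fun n => (Nat.Partrec.Code.eval (Denumerable.ofNat Nat.Partrec.Code n) 0).Dom, ?_, ?_⟩
  · exact dprm (Nat.Partrec.Code.eval_part.comp (Computable.ofNat Nat.Partrec.Code)
      (Computable.const 0)).dom_re
  · rintro ⟨_, h⟩
    refine ComputablePred.halting_problem 0 ?_
    classical
    refine ⟨fun _ => Classical.dec _, ?_⟩
    have h2 := h.comp (Computable.encode (α := Nat.Partrec.Code))
    refine h2.of_eq fun c => ?_
    simp

end Pool.Agent.DPRM69
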